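import Pool.Agent.H58.SO.Basic

/-!
# Several orbits of vertices: composition of a canonical polymorphism with a canonical
homomorphism (row PRE)
-/

set_option autoImplicit false

namespace Pool.Agent.H78.SO

open Pool.Agent.H68.BP Pool.Agent.H58.SF Pool.Agent.H53.GC Pool.Agent.H53.NR Pool.Agent.H58.SO
open Classical

section

variable {V X Θ : Type} {M : ℕ} [LinearOrder V] {σ : Sig} {B : Bs V X Θ M} {𝔸 𝔸' : Str σ V}
  {m : X × Ordering → X × Ordering}

/-- `g` realizes `m` on the set `K` -/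
def On (B : Bs V X Θ M) (m : X × Ordering → X × Ordering) (K : Finset V) (g : V → V) : Prop :=
  ∀ x ∈ K, ∀ y ∈ K, B.ct (g x) (g y) = m (B.ct x y)

theorem exists_on (hRLZ : T_RLZ) (hm : UM B B 𝔸' 𝔸 m) (K : Finset V) : ∃ g, On B m K g := by
  obtain ⟨γ, hγ⟩ := hRLZ V X Θ M B {x // x ∈ K} (fun p p' => m (B.ct p.1 p'.1)) (by
    intro p
    obtain ⟨y, -, hy⟩ := hm none (fun a => (p a).1) trivial
    exact ⟨y, hy⟩)
  refine ⟨fun x => if h : x ∈ K then γ ⟨x, h⟩ else x, fun x hx y hy => ?_⟩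
  show B.ct (if h : x ∈ K then γ ⟨x, h⟩ else x) (if h : y ∈ K then γ ⟨y, h⟩ else y) = _
  rw [dif_pos hx, dif_pos hy]
  exact hγ _ _

theorem On.rel (hb : Blind B 𝔸 ∅) (hm : UM B B 𝔸' 𝔸 m) {K : Finset V} {g : V → V}
    (hg : On B m K g) {s : Option (Fin σ.m)} {x : Fin (arP σ M s) → V} (hx : relP 𝔸' M s x)
    (hK : ∀ a, x a ∈ K) : relP 𝔸 M s (fun a => g (x a)) := by
  obtain ⟨y, hy, hy'⟩ := hm s x hx
  refine hb.rel hy (sameD_of_ct fun a b => ?_)
  rw [hg _ (hK a) _ (hK b), hy']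

/-- the value does not depend on the realization -/
theorem On.val {Z : Type} {I : Type} {h : (I → V) → (I → V) → Z} (ht : TID B ∅ h)
    {K K' : Finset V} {g g' : V → V} (hg : On B m K g) (hg' : On B m K' g') {v w v' w' : I → V}
    (hv : ∀ i, v i ∈ K) (hw : ∀ i, w i ∈ K) (hv' : ∀ i, v' i ∈ K') (hw' : ∀ i, w' i ∈ K')
    (hs : SameO B ∅ (Sum.elim v w) (Sum.elim v' w')) :
    h (fun i => g (v i)) (fun i => g (w i)) = h (fun i => g' (v' i)) (fun i => g' (w' i)) := by
  have e1 : ∀ a, Sum.elim (fun i => g (v i)) (fun i => g (w i)) a = g (Sum.elim v w a) := by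
    rintro (a | a) <;> rfl
  have e2 : ∀ a, Sum.elim (fun i => g' (v' i)) (fun i => g' (w' i)) a = g' (Sum.elim v' w' a) := by
    rintro (a | a) <;> rfl
  have k1 : ∀ a, Sum.elim v w a ∈ K := by
    rintro (a | a)
    · exact hv a
    · exact hw a
  have k2 : ∀ a, Sum.elim v' w' a ∈ K' := by
    rintro (a | a)
    · exact hv' a
    · exact hw' a
  refine ht _ _ _ _ (sameO_empty.2 fun a b => ?_)
  rw [e1, e1, e2, e2, hg _ (k1 a) _ (k1 b), hg' _ (k2 a) _ (k2 b), hs.ctEmpty a b]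

end

theorem pf_PRE (hRLZ : T_RLZ) : T_PRE := by
  intro σ V X Θ _ M B 𝔸 𝔸' m h hS hm hid
  choose G hG using exists_on hRLZ hm
  obtain ⟨K, hK⟩ : ∃ K : (Fin 6 → V) → (Fin 6 → V) → Finset V, ∀ v w,
      K v w = Finset.univ.image v ∪ Finset.univ.image w := ⟨_, fun _ _ => rfl⟩
  have hKl : ∀ v w i, v i ∈ K v w := fun v w i => by
    rw [hK]
    exact Finset.mem_union_left _ (Finset.mem_image_of_mem _ (Finset.mem_univ _))
  have hKr : ∀ v w i, w i ∈ K v w := fun v w i => by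
    rw [hK]
    exact Finset.mem_union_right _ (Finset.mem_image_of_mem _ (Finset.mem_univ _))
  obtain ⟨h', hh'⟩ : ∃ h' : (Fin 6 → V) → (Fin 6 → V) → X × Ordering, ∀ v w,
      h' v w = h (fun i => G (K v w) (v i)) (fun i => G (K v w) (w i)) := ⟨_, fun _ _ => rfl⟩
  have hval : ∀ (L : Finset V) (g : V → V), On B m L g → ∀ v w : Fin 6 → V, (∀ i, v i ∈ L) →
      (∀ i, w i ∈ L) → h' v w = h (fun i => g (v i)) (fun i => g (w i)) := by
    intro L g hg v w hv hw
    rw [hh']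
    exact On.val hS.tid (hG (K v w)) hg (hKl v w) (hKr v w) hv hw
      (sameO_empty.2 fun _ _ => rfl)
  refine ⟨h', ?_, ?_, ?_⟩
  · intro s v hv
    obtain ⟨L, hL⟩ : ∃ L : Finset V, ∀ a i, v a i ∈ L :=
      ⟨Finset.univ.image (fun p : Fin (arP σ M s) × Fin 6 => v p.1 p.2), fun a i =>
        Finset.mem_image.2 ⟨(a, i), Finset.mem_univ _, rfl⟩⟩
    obtain ⟨x, hx, hx'⟩ := hS.pm s (fun a i => G L (v a i)) fun i =>
      On.rel hS.blind hm (hG L) (hv i) fun a => hL a i
    obtain ⟨y, hy, hy'⟩ := hid s x hx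
    refine ⟨y, hy, fun a b => ?_⟩
    rw [hy', id, hx', hval L (G L) (hG L) (v a) (v b) (hL a) (hL b)]
  · intro v w v' w' hs
    rw [hh', hh']
    exact On.val hS.tid (hG _) (hG _) (hKl v w) (hKr v w) (hKl v' w') (hKr v' w') hs
  · intro r x y x' y'
    obtain ⟨L, hx, hy, hx', hy'⟩ : ∃ L : Finset V, x ∈ L ∧ y ∈ L ∧ x' ∈ L ∧ y' ∈ L :=
      ⟨{x, y, x', y'}, by simp, by simp, by simp, by simp⟩
    have hp : ∀ (r : Fin 3) (u v : V), u ∈ L → v ∈ L → ∀ i, pat r u v i ∈ L := by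
      intro r u v hu hv i
      have h1 := pat_map (fun b : Bool => if b then u else v) r true false i
      have h2 : pat r ((fun b : Bool => if b then u else v) true)
          ((fun b : Bool => if b then u else v) false) i = pat r u v i := rfl
      rw [← h2, ← h1]
      show (if pat r true false i then u else v) ∈ L
      split_ifs <;> assumption
    rw [hval L (G L) (hG L) _ _ (hp r x y hx hy) (hp r x' y' hx' hy'),
      hval L (G L) (hG L) _ _ (hp 0 x y hx hy) (hp 0 x' y' hx' hy')]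
    have hpm : ∀ (r : Fin 3) (u v : V), (fun i => G L (pat r u v i)) = pat r (G L u) (G L v) :=
      fun r u v => by
        funext i
        exact pat_map (G L) r u v i
    rw [hpm, hpm, hpm, hpm]
    exact hS.exact r _ _ _ _

end Pool.Agent.H78.SO
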